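import Pool.Agent.H765.SC.Stm

/-!
# Project SC (helper765), job SUM (helper245): a connected sum is undetected only if both summands are
-/

set_option autoImplicit false

namespace Pool.Agent.H765.SC.SUM

open PowerSeries Pool.Agent.H765.GK Pool.Agent.H765.DB Pool.Agent.H765.ST Pool.Agent.H765.MM
open Pool.Agent.H765.SC

/-- the constant coefficient of `B(e^h)` -/
theorem const_ev (B : Polynomial ℤ) : coeff 0 (ev B) = ((B.eval 1 : ℤ) : ℚ) := by
  induction B using Polynomial.induction_on' with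
  | add P Q hP hQ =>
    rw [map_add, map_add, hP, hQ, Polynomial.eval_add]
    push_cast
    rfl
  | monomial j a =>
    rw [← Polynomial.C_mul_X_pow_eq_monomial, map_mul, map_pow, ev_C, ev_X, hexp_nat, coeff_C_mul,
      coeff_hexp]
    simp

/-- the powers of `e^h` are linearly independent -/
theorem ev_zero {B : Polynomial ℤ} (h : ev B = 0) : B = 0 := by
  by_contra hB
  obtain ⟨m, q, hq, hnd⟩ : ∃ (m : ℕ) (q : Polynomial ℤ),
      B = (Polynomial.X - Polynomial.C 1) ^ m * q ∧ ¬ (Polynomial.X - Polynomial.C 1) ∣ q :=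
    ⟨_, Polynomial.exists_eq_pow_rootMultiplicity_mul_and_not_dvd B hB 1⟩
  rw [hq, map_mul, map_pow, mul_eq_zero] at h
  rcases h with h | h
  · have h1 := eq_zero_of_pow_eq_zero h
    rw [map_sub, ev_X, ev_C] at h1
    have h2 := congrArg (coeff 1) h1
    rw [map_sub, coeff_hexp, coeff_C, map_zero, if_neg one_ne_zero] at h2
    norm_num at h2
  · apply hnd
    rw [Polynomial.dvd_iff_isRoot, Polynomial.IsRoot]
    have h1 := const_ev q
    rw [h, map_zero] at h1
    exact_mod_cast h1.symm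

theorem ev_injective {B B' : Polynomial ℤ} (h : ev B = ev B') : B = B' := by
  have h1 : ev (B - B') = 0 := by rw [map_sub, h, sub_self]
  exact sub_eq_zero.mp (ev_zero h1)

theorem unknotJ_nat_ne {N : ℤ} (hN : N ≠ 0) : unknotJ N ≠ 0 := by
  intro h
  have h1 := mul_unknotJ_cancel hN
  rw [h, zero_mul] at h1
  exact zero_ne_one h1

theorem one_side {J L : ℤ → ℚ⟦X⟧} (hJ : Knotlike J) (lJ : Laur J) (lL : Laur L)
    (h : (fun N => J N * L N * (unknotJ N)⁻¹) = unknotJ) (N : ℕ) (hN : 1 ≤ N) :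
    J N = unknotJ N := by
  obtain ⟨k, f, hf⟩ := lJ N hN
  obtain ⟨l, g, hg⟩ := lL N hN
  have e := congrFun h N
  beta_reduce at e
  have hN0 : (N : ℤ) ≠ 0 := by exact_mod_cast (by omega : N ≠ 0)
  have hc := mul_unknotJ_cancel hN0
  have hu := unknotJ_nat_ne hN0
  have e1 : unknotJ N * ev (f * g) = unknotJ N * ev (Polynomial.X ^ (k + l)) := by
    rw [map_mul, map_pow, ev_X, hexp_nat]
    have h1 : hexp ((k + l : ℕ) : ℚ) = hexp k * hexp l := by
      rw [← hexp_add]
      push_cast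
      rfl
    rw [h1]
    calc unknotJ N * (ev f * ev g)
        = unknotJ N * (ev f * ev g) * (unknotJ N * (unknotJ N)⁻¹) := by rw [hc, mul_one]
      _ = (unknotJ N * ev f) * (unknotJ N * ev g) * (unknotJ N)⁻¹ := by ring
      _ = (hexp k * J N) * (hexp l * L N) * (unknotJ N)⁻¹ := by rw [hf, hg]
      _ = (J N * L N * (unknotJ N)⁻¹) * (hexp k * hexp l) := by ring
      _ = unknotJ N * (hexp k * hexp l) := by rw [e]
  have e2 := ev_injective (mul_left_cancel₀ hu e1)
  have e3 : f ∣ Polynomial.X ^ (k + l) := ⟨g, e2.symm⟩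
  obtain ⟨i, -, hi⟩ := (dvd_prime_pow Polynomial.prime_X _).mp e3
  obtain ⟨w, hw⟩ := hi.symm
  obtain ⟨r, hr, hwr⟩ := Polynomial.isUnit_iff.mp w.isUnit
  have e4 : ev f = hexp i * C (r : ℚ) := by
    rw [← hw, ← hwr, map_mul, map_pow, ev_X, hexp_nat, ev_C]
  have hJ0 := (hJ.knotFn.t2 N).1
  have hJ1 := (hJ.knotFn.t2 N).2
  have hU0 := (knotFn_unknot.t2 N).1
  have hU1 := (knotFn_unknot.t2 N).2
  rw [e4] at hf
  have c0 := congrArg (coeff 0) hf
  have c1 := congrArg (coeff 1) hf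
  have hNq : (N : ℚ) ≠ 0 := by exact_mod_cast (by omega : N ≠ 0)
  have m1 := (t2_hexp (k : ℚ)).mul (hJ.knotFn.t2 N)
  have m2 := (knotFn_unknot.t2 N).mul ((t2_hexp (i : ℚ)).mul
    (⟨by rw [coeff_C, if_pos rfl], by rw [coeff_C, if_neg one_ne_zero]⟩ : T2 (C (r : ℚ)) (r : ℚ) 0))
  rw [m1.1, m2.1] at c0
  rw [m1.2, m2.2] at c1
  have hr1 : (r : ℚ) = 1 := by
    have : (N : ℚ) * r = N * 1 := by
      push_cast at c0
      linarith
    exact mul_left_cancel₀ hNq this
  have hik : (k : ℚ) = i := by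
    rw [hr1] at c1
    have : (N : ℚ) * k = N * i := by
      push_cast at c1
      linarith
    exact mul_left_cancel₀ hNq this
  rw [hr1, map_one, mul_one, ← hik, mul_comm] at hf
  exact mul_right_cancel₀ (hexp_ne_zero _) hf

theorem t_SUM : S_SUM := by
  intro J L hJ hL lJ lL h
  have h' : (fun N => L N * J N * (unknotJ N)⁻¹) = unknotJ := by
    refine Eq.trans ?_ h
    funext N
    rw [mul_comm (L N)]
  have key : ∀ {J L : ℤ → ℚ⟦X⟧}, Knotlike J → Laur J → Laur L →
      (fun N => J N * L N * (unknotJ N)⁻¹) = unknotJ → J = unknotJ := by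
    intro J L hJ lJ lL h
    funext N
    rcases eq_or_ne N 0 with rfl | h0
    · rw [hJ.knotFn.zero, unknotJ_zero]
    · obtain ⟨n, hn | hn⟩ := Int.eq_nat_or_neg N
      · rw [hn]
        exact one_side hJ lJ lL h n (by omega)
      · rw [hn, hJ.odd, unknotJ_neg, one_side hJ lJ lL h n (by omega)]
  exact ⟨key hJ lJ lL h, key hL lL lJ h'⟩

end Pool.Agent.H765.SC.SUM
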