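import Pool.Agent.H765.SC.Stm2
import Pool.Agent.H765.SC.SUM

/-!
# Project SC (helper765), job ALX (helper956): an undetected connected sum has trivial Alexander polynomials
-/

set_option autoImplicit false

namespace Pool.Agent.H765.SC.ALX

open PowerSeries Pool.Agent.H765.GK Pool.Agent.H765.DB Pool.Agent.H765.ST Pool.Agent.H765.MM
open Pool.Agent.H765.SC

theorem one_side {w w' : ℚ⟦X⟧} (hw : HasAlex w) (hw' : HasAlex w')
    (h : (hexp 1 - hexp (-1)) * (hexp 1 - hexp (-1)) = w * w') :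
    ∃ c : ℚ, w = hexp c * (hexp 1 - hexp (-1)) := by
  obtain ⟨B, k, hB, e⟩ := hw
  obtain ⟨B', k', -, e'⟩ := hw'
  have hD : (hexp 1 - hexp (-1) : ℚ⟦X⟧) ≠ 0 := hexp_sub_ne one_ne_zero
  set D : ℚ⟦X⟧ := hexp 1 - hexp (-1) with hDd
  set P := Polynomial.expand ℤ 2 B with hP
  set P' := Polynomial.expand ℤ 2 B' with hP'
  have e1 : ev (P * P') = hexp ((k : ℚ) + k') := by
    apply mul_right_cancel₀ (mul_ne_zero hD hD)
    rw [map_mul, hexp_add]
    linear_combination (ev P * ev P') * h + (ev P' * w') * e + (hexp k * D) * e'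
  obtain ⟨j, r, hr⟩ : ∃ j r : ℕ, (r : ℤ) = j + (k + k') :=
    ⟨(k + k').natAbs, ((k + k').natAbs + (k + k')).toNat, by omega⟩
  have e2 : Polynomial.X ^ j * (P * P') = Polynomial.X ^ r := by
    apply SUM.ev_injective
    rw [map_mul, e1, map_pow, map_pow, ev_X, hexp_nat, hexp_nat, ← hexp_add]
    congr 1
    have : (r : ℚ) = j + (k + k') := by exact_mod_cast hr
    rw [this]
  have e3 : P ∣ Polynomial.X ^ r := ⟨Polynomial.X ^ j * P', by rw [← e2]; ring⟩
  obtain ⟨i, -, hi⟩ := (dvd_prime_pow Polynomial.prime_X _).mp e3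
  obtain ⟨u, hu⟩ := hi.symm
  obtain ⟨s, -, hs⟩ := Polynomial.isUnit_iff.mp u.isUnit
  rw [← hs] at hu
  have e4 := congrArg (Polynomial.eval 1) hu
  rw [hP, Polynomial.expand_eval, one_pow, hB, Polynomial.eval_mul, Polynomial.eval_pow,
    Polynomial.eval_X, one_pow, one_mul, Polynomial.eval_C] at e4
  rw [e4, map_one, mul_one] at hu
  rw [← hu, map_pow, ev_X, hexp_nat] at e
  refine ⟨(k : ℚ) - i, ?_⟩
  apply mul_left_cancel₀ (hexp_ne_zero (i : ℚ))
  rw [e, ← mul_assoc, ← hexp_add]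
  congr 2
  ring

theorem coeff_two (c : ℚ) : coeff 2 (hexp c * (hexp 1 - hexp (-1))) = 2 * c := by
  rw [coeff_mul, Finset.Nat.sum_antidiagonal_eq_sum_range_succ_mk]
  simp only [Finset.sum_range_succ, Finset.sum_range_zero, map_sub, coeff_hexp]
  norm_num [Nat.factorial]
  ring

theorem key {J L : ℤ → ℚ⟦X⟧} (hJ : Knotlike J) (hL : Knotlike L)
    (h : (fun N => J N * L N * (unknotJ N)⁻¹) = unknotJ) : wf J = wf unknotJ := by
  have hs := wf_sum hJ.bd hJ.knotFn.zero hL.bd hL.knotFn.zero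
  rw [h, wf_unknot] at hs
  obtain ⟨c, hc⟩ := one_side hJ.alex hL.alex hs
  have h2 := wf_odd hJ.odd hJ.bd 2 even_two
  rw [hc, coeff_two] at h2
  have hc0 : c = 0 := by linarith
  rw [hc, hc0, hexp_zero, one_mul, wf_unknot]

theorem t_ALX : S_ALX := by
  intro J L hJ hL h
  have h' : (fun N => L N * J N * (unknotJ N)⁻¹) = unknotJ := by
    refine Eq.trans ?_ h
    funext N
    rw [mul_comm (L N)]
  exact ⟨key hJ hL h, key hL hJ h'⟩

end Pool.Agent.H765.SC.ALX
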