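import Pool.Agent.H765.SC.Stm

/-!
# The leading coefficient of the coefficients of an annulus with full twists
-/

set_option autoImplicit false

namespace Pool.Agent.H765.SC.ANN

open Pool.Agent.H765.SC
open PowerSeries Pool.Agent.H765.GK Pool.Agent.H765.DB Pool.Agent.H765.ST Pool.Agent.H765.MM

/-- The main estimate, with hypotheses only on the coefficients up to `n`. -/
theorem T_coeff_of_le (i n s : ℕ) (F : ℕ → ℚ⟦X⟧)
    (h : ∀ l ≤ n, ∃ P : Polynomial ℚ, 2 * P.natDegree ≤ l + s ∧
      ∀ k : ℕ, coeff l (F k) = P.eval ((k : ℚ) * (k + 1)))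
    (hs : n + s < 2 * i) : coeff n (T i F) = 0 := by
  have h1 : T i F = T i (fun k => PowerSeries.mk (fun l => if l ≤ n then coeff l (F k) else 0)) +
      X ^ (n + 1) * T i (fun k => PowerSeries.mk fun l => coeff (l + (n + 1)) (F k)) := by
    rw [← T_mul, ← T_add]
    apply T_congr
    intro k _
    ext l
    rw [map_add, coeff_mk, coeff_X_pow_mul']
    by_cases hl : l ≤ n
    · rw [if_pos hl, if_neg (by omega), add_zero]
    · rw [if_neg hl, if_pos (by omega), coeff_mk, zero_add, Nat.sub_add_cancel (by omega)]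
  have h2 : Bx 1 s (fun k => PowerSeries.mk (fun l => if l ≤ n then coeff l (F k) else 0)) := by
    intro l
    by_cases hl : l ≤ n
    · obtain ⟨P, hP, hk⟩ := h l hl
      refine ⟨P, by omega, fun k => ?_⟩
      rw [coeff_mk, if_pos hl, hk]
    · refine ⟨0, by simp, fun k => ?_⟩
      rw [coeff_mk, if_neg hl, Polynomial.eval_zero]
  rw [h1, map_add, T_coeff_zero le_rfl n s _ h2 i (by omega), coeff_X_pow_mul',
    if_neg (by omega), add_zero]

/-- The leading coefficient for the exponential function. -/
theorem T_hexp (m : ℚ) (d : ℕ) :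
    coeff (d + 1) (T (d + 1) fun k => hexp (2 * m * ((k : ℚ) * (k + 1)))) =
      (2 * m) ^ (d + 1) / ((d + 1).factorial : ℚ) := by
  set c : ℚ := (2 * m) ^ (d + 1) / ((d + 1).factorial : ℚ) with hc
  have key : coeff (d + 1) (T (d + 1) fun k => hexp (2 * m * ((k : ℚ) * (k + 1))) +
      (-(C c * X ^ (d + 1))) * ph (d + 1) k) = 0 := by
    apply T_coeff_of_le (d + 1) (d + 1) d
    · intro l hl
      rcases Nat.lt_or_ge l (d + 1) with h1 | h1
      · refine ⟨(Polynomial.C (2 * m) * Polynomial.X) ^ l *
          Polynomial.C (1 / (l.factorial : ℚ)), ?_, fun k => ?_⟩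
        · have : ((Polynomial.C (2 * m) * Polynomial.X) ^ l *
              Polynomial.C (1 / (l.factorial : ℚ))).natDegree ≤ l := by
            refine (Polynomial.natDegree_mul_le).trans ?_
            rw [Polynomial.natDegree_C, add_zero]
            refine (Polynomial.natDegree_pow_le).trans ?_
            have : (Polynomial.C (2 * m) * Polynomial.X : Polynomial ℚ).natDegree ≤ 1 :=
              (Polynomial.natDegree_C_mul_le _ _).trans Polynomial.natDegree_X_le
            nlinarith
          omega
        · have h2 : (-(C c * X ^ (d + 1))) * ph (d + 1) k =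
              X ^ (d + 1) * (-(C c) * ph (d + 1) k) := by ring
          rw [h2, map_add, coeff_X_pow_mul', if_neg (by omega), add_zero, coeff_hexp]
          simp
      · obtain rfl : l = d + 1 := le_antisymm hl h1
        have hdeg : (Polynomial.C c * Polynomial.X ^ (d + 1) : Polynomial ℚ).natDegree ≤ d + 1 :=
          (Polynomial.natDegree_C_mul_X_pow_le _ _)
        have hcoef : (Polynomial.C c * Polynomial.X ^ (d + 1) : Polynomial ℚ).coeff (d + 1) = c := by
          rw [Polynomial.coeff_C_mul, Polynomial.coeff_X_pow, if_pos rfl, mul_one]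
        have hred := deg_reduce hdeg (nb_monic (d + 1)) (nb_natDegree (d + 1))
        rw [hcoef] at hred
        refine ⟨Polynomial.C c * Polynomial.X ^ (d + 1) - Polynomial.C c * nb (d + 1), by omega,
          fun k => ?_⟩
        have h2 : (-(C c * X ^ (d + 1))) * ph (d + 1) k =
            X ^ (d + 1) * (-(C c) * ph (d + 1) k) := by ring
        have h3 : coeff 0 (-(C c) * ph (d + 1) k) =
            -c * (nb (d + 1)).eval ((k : ℚ) * (k + 1)) := by
          rw [coeff_zero_eq_constantCoeff_apply, map_mul, map_neg, constantCoeff_C, ph_const]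
        rw [h2, map_add, coeff_X_pow_mul', if_pos le_rfl, Nat.sub_self, h3, coeff_hexp,
          Polynomial.eval_sub, Polynomial.eval_mul, Polynomial.eval_mul, Polynomial.eval_C,
          Polynomial.eval_pow, Polynomial.eval_X, hc,
          mul_pow (2 * m) ((k : ℚ) * (k + 1)) (d + 1)]
        ring
    · omega
  rw [T_add (d + 1) (fun k => hexp (2 * m * ((k : ℚ) * (k + 1)))), T_mul, T_ph_self, mul_one,
    map_add] at key
  have h4 : coeff (d + 1) (-(C c * X ^ (d + 1)) : ℚ⟦X⟧) = -c := by
    rw [map_neg, coeff_C_mul, coeff_X_pow, if_pos rfl, mul_one]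
  rw [h4] at key
  linarith

theorem t_ANN : S_ANN := by
  intro J hJ m i
  obtain ⟨g, hg, e⟩ := exists_g (a := 1) (s := 0) le_rfl hJ.odd hJ.bd
  rcases i with _ | d
  · have h0 := e 0
    have h1 : J (2 * ((0 : ℕ) : ℤ) + 1) = 1 := by
      simpa using hJ.one
    have h2 : unknotJ (2 * ((0 : ℕ) : ℤ) + 1) = 1 := by
      simpa using unknotJ_one
    rw [h1, h2, one_mul] at h0
    rw [annulus_eq e, T_zero, qfac_zero, ← h0]
    simp [hexp_zero]
  · rw [annulus_eq e]
    -- the constant coefficient of `g`
    have hg0 : ∀ k : ℕ, constantCoeff (g k) = 1 := by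
      intro k
      have h1 := congrArg constantCoeff (e k)
      have h2 : constantCoeff (J (2 * (k : ℤ) + 1)) =
          constantCoeff (unknotJ (2 * (k : ℤ) + 1)) := by
        obtain ⟨R, hR⟩ := hJ.two (2 * (k : ℤ) + 1)
        have h3 : J (2 * (k : ℤ) + 1) = unknotJ (2 * (k : ℤ) + 1) + X ^ 2 * R := by
          rw [← hR]
          ring
        rw [h3, map_add, map_mul, map_pow, constantCoeff_X]
        ring
      rw [map_mul, h2, coeff_zero_unknotJ] at h1
      have h4 : (((2 * (k : ℤ) + 1 : ℤ)) : ℚ) ≠ 0 := by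
        have : (2 * (k : ℤ) + 1) ≠ 0 := by omega
        exact_mod_cast this
      have h5 : (((2 * (k : ℤ) + 1 : ℤ)) : ℚ) * 1 =
          (((2 * (k : ℤ) + 1 : ℤ)) : ℚ) * constantCoeff (g k) := by
        rw [mul_one]
        exact h1
      exact (mul_left_cancel₀ h4 h5).symm
    obtain ⟨p, g1, hp, hg1, he⟩ := hg.split
    have hp1 : ∀ k : ℕ, g k = 1 + X * g1 k := by
      intro k
      have h1 := congrArg constantCoeff (he k)
      rw [hg0, map_add, constantCoeff_C, map_mul, constantCoeff_X, zero_mul, add_zero] at h1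
      rw [he k, ← h1, map_one]
    -- divisibility
    have hdvd : X ^ (d + 1) ∣
        T (d + 1) (fun k => hexp (2 * m * ((k : ℚ) * (k + 1))) * g k) := by
      apply T_dvd one_le_two (s := 0 + 0) ((Bx.hexp (2 * m)).mul (hg.slope one_le_two))
      omega
    -- the coefficient
    have hcoef : coeff (d + 1) (T (d + 1) (fun k => hexp (2 * m * ((k : ℚ) * (k + 1))) * g k)) =
        (2 * (m : ℚ)) ^ (d + 1) / ((d + 1).factorial : ℚ) := by
      have h1 : T (d + 1) (fun k => hexp (2 * m * ((k : ℚ) * (k + 1))) * g k) =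
          T (d + 1) (fun k => hexp (2 * m * ((k : ℚ) * (k + 1)))) +
            X * T (d + 1) (fun k => hexp (2 * m * ((k : ℚ) * (k + 1))) * g1 k) := by
        rw [← T_mul, ← T_add]
        apply T_congr
        intro k _
        rw [hp1 k]
        ring
      have h2 : coeff d (T (d + 1) (fun k => hexp (2 * m * ((k : ℚ) * (k + 1))) * g1 k)) = 0 := by
        apply T_coeff_zero one_le_two d (0 + (0 + 1)) _
          ((Bx.hexp (2 * m)).mul (hg1.slope one_le_two))
        omega
      rw [h1, map_add, T_hexp, mul_comm X, coeff_succ_mul_X, h2, add_zero]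
    obtain ⟨U, hU⟩ := hdvd
    rw [hU] at hcoef
    rw [hU]
    have h6 : coeff (d + 1) (X ^ (d + 1) * U) = constantCoeff U := by
      rw [coeff_X_pow_mul', if_pos le_rfl, Nat.sub_self, coeff_zero_eq_constantCoeff_apply]
    have h7 : qfac (d + 1) * (X ^ (d + 1) * U) = X ^ (d + 1) * (qfac (d + 1) * U) := by ring
    rw [h6] at hcoef
    rw [h7, coeff_X_pow_mul', if_pos le_rfl, Nat.sub_self, coeff_zero_eq_constantCoeff_apply,
      map_mul, constCoeff_qfac, hcoef]
    have h8 : ((d + 1).factorial : ℚ) ≠ 0 := by exact_mod_cast (d + 1).factorial_ne_zero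
    field_simp

end Pool.Agent.H765.SC.ANN
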