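import Pool.Agent.H765.SC.Stm

set_option autoImplicit false

namespace Pool.Agent.H765.SC.CAB

open PowerSeries Pool.Agent.H765.GK Pool.Agent.H765.DB Pool.Agent.H765.ST Pool.Agent.H765.MM
  Pool.Agent.H765.SC

theorem ev_zero (B : Polynomial ℤ) (h : ev B = 0) : B = 0 := by
  have hn : ∀ n : ℕ, ∑ i ∈ Finset.range (B.natDegree + 1), (B.coeff i : ℚ) * (i : ℚ) ^ n = 0 := by
    intro n
    have h1 := congrArg (coeff n) h
    rw [ev_eq, map_sum, map_zero] at h1
    have h2 : ∀ i ∈ Finset.range (B.natDegree + 1),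
        coeff n (C ((B.coeff i : ℤ) : ℚ) * hexp i) =
          (B.coeff i : ℚ) * (i : ℚ) ^ n * (1 / n.factorial) := by
      intro i _
      rw [coeff_C_mul, coeff_hexp, mul_assoc]
    rw [Finset.sum_congr rfl h2, ← Finset.sum_mul] at h1
    have h3 : (1 / (n.factorial : ℚ)) ≠ 0 := by
      have : (n.factorial : ℚ) ≠ 0 := by exact_mod_cast n.factorial_ne_zero
      positivity
    exact (mul_eq_zero.mp h1).resolve_right h3
  have hv : (fun i : Fin (B.natDegree + 1) => (B.coeff i : ℚ)) = 0 := by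
    apply Matrix.eq_zero_of_forall_pow_sum_mul_pow_eq_zero
      (f := fun i : Fin (B.natDegree + 1) => ((i : ℕ) : ℚ))
    · intro i j hij
      have : ((i : ℕ) : ℚ) = ((j : ℕ) : ℚ) := hij
      exact Fin.ext (by exact_mod_cast this)
    · intro n
      have := hn n
      rw [Finset.sum_range] at this
      exact this
  ext i
  rw [Polynomial.coeff_zero]
  by_cases hi : i < B.natDegree + 1
  · have := congrFun hv ⟨i, hi⟩
    simpa using this
  · exact Polynomial.coeff_eq_zero_of_natDegree_lt (by omega)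

theorem nonneg {w : ℚ⟦X⟧} (h : HasAlex w) : ∃ (B : Polynomial ℤ) (k : ℕ),
    B.eval 1 = 1 ∧ ev (Polynomial.expand ℤ 2 B) * w =
      ev (Polynomial.X ^ k * (Polynomial.X ^ 2 - 1)) := by
  obtain ⟨B, k, hB, hw⟩ := h
  set g : ℕ := k.natAbs + 1 with hg
  obtain ⟨r, hr⟩ : ∃ r : ℕ, (r : ℤ) = 2 * g + k - 1 := by
    refine ⟨(2 * g + k - 1).toNat, Int.toNat_of_nonneg ?_⟩
    omega
  refine ⟨Polynomial.X ^ g * B, r, by simp [hB], ?_⟩
  rw [map_mul, map_mul, mul_assoc, hw, map_pow, Polynomial.expand_X, ← pow_mul, map_pow, ev_X,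
    hexp_nat, map_mul, map_pow, map_sub, map_pow, map_one, ev_X, hexp_nat, hexp_nat, mul_sub,
    mul_sub, mul_sub, mul_one, ← hexp_add, ← hexp_add, ← hexp_add, ← hexp_add, ← hexp_add]
  have hr' : (r : ℚ) = 2 * g + k - 1 := by exact_mod_cast hr
  rw [hr']
  congr 2
  · push_cast; ring
  · push_cast; ring

theorem evp (n : ℕ) : ev (Polynomial.X ^ n) = hexp n := by
  rw [map_pow, ev_X, hexp_nat]

theorem t_CAB : S_CAB := by
  intro J hJ p q hp hq hq2 he
  have hq0 : q ≠ 0 := by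
    rintro rfl
    simp at hq2
  set a := q.natAbs with ha
  -- the relation for `a` instead of `q`
  have hc : (hexp (p * a) - hexp (-(p * a))) * wf (cableJ p q J) =
      (hexp a - hexp (-a)) * rescale (p : ℚ) (wf J) := by
    have h1 := wf_cable hJ.odd hJ.bd p hq0
    rcases Int.natAbs_eq q with h2 | h2
    · rw [← ha] at h2
      have h3 : (q : ℚ) = a := by rw [h2]; push_cast; rfl
      rw [h3] at h1
      exact h1
    · rw [← ha] at h2
      have h3 : (q : ℚ) = -a := by rw [h2]; push_cast; ring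
      rw [h3, neg_neg, mul_neg, neg_neg] at h1
      linear_combination -h1
  rw [he, wf_unknot] at hc
  obtain ⟨B, k, hB, hw⟩ := nonneg hJ.alex
  have hw' := congrArg (rescale (p : ℚ)) hw
  have hk : ev (Polynomial.X ^ k * (Polynomial.X ^ 2 - 1)) =
      ev (Polynomial.expand ℤ 1 (Polynomial.X ^ k * (Polynomial.X ^ 2 - 1))) := by
    rw [Polynomial.expand_one]
  rw [hk, map_mul, ev_expand, ev_expand] at hw'
  set R := rescale (p : ℚ) (wf J) with hR
  -- multiply by `hexp`
  have e1 : hexp a * (hexp ((2 * (p * a) : ℕ) : ℚ) - 1) * (hexp ((2 : ℕ) : ℚ) - 1) =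
      hexp ((p * a + 1 : ℕ) : ℚ) * (hexp ((2 * a : ℕ) : ℚ) - 1) * R := by
    have s1 : hexp ((2 * (p * a) : ℕ) : ℚ) = hexp (p * a) * hexp (p * a) := by
      rw [← hexp_add]; congr 1; push_cast; ring
    have s2 : hexp ((2 : ℕ) : ℚ) = hexp 1 * hexp 1 := by
      rw [← hexp_add]; congr 1; push_cast; ring
    have s3 : hexp ((2 * a : ℕ) : ℚ) = hexp a * hexp a := by
      rw [← hexp_add]; congr 1; push_cast; ring
    have s4 : hexp ((p * a + 1 : ℕ) : ℚ) = hexp (p * a) * hexp 1 := by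
      rw [← hexp_add]; congr 1; push_cast; ring
    have s5 : hexp ((p : ℚ) * a) * hexp (-((p : ℚ) * a)) = 1 := by
      rw [← hexp_add, add_neg_cancel, hexp_zero]
    have s6 : hexp (1 : ℚ) * hexp (-1 : ℚ) = 1 := by
      rw [← hexp_add, add_neg_cancel, hexp_zero]
    have s7 : hexp (a : ℚ) * hexp (-(a : ℚ)) = 1 := by
      rw [← hexp_add, add_neg_cancel, hexp_zero]
    rw [s1, s2, s3, s4]
    linear_combination (hexp ((p : ℚ) * a) * hexp 1 * hexp (a : ℚ)) * hc +
      (hexp (a : ℚ) * (hexp 1 * hexp 1 - hexp 1 * hexp (-1))) * s5 +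
      (hexp (a : ℚ) * (hexp ((p : ℚ) * a) * hexp ((p : ℚ) * a) - 1)) * s6 -
      (hexp ((p : ℚ) * a) * hexp 1 * R) * s7
  have e2 : ev (Polynomial.expand ℤ (p * 2) B * (Polynomial.X ^ a *
      (Polynomial.X ^ (2 * (p * a)) - 1) * (Polynomial.X ^ 2 - 1))) =
      ev (Polynomial.X ^ (p * a + 1) * (Polynomial.X ^ (2 * a) - 1) *
        Polynomial.expand ℤ (p * 1) (Polynomial.X ^ k * (Polynomial.X ^ 2 - 1))) := by
    rw [map_mul ev (Polynomial.X ^ (p * a + 1) * (Polynomial.X ^ (2 * a) - 1)), ← hw']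
    simp only [map_mul, map_sub, map_one, evp]
    linear_combination (ev (Polynomial.expand ℤ (p * 2) B)) * e1
  have e3 : Polynomial.expand ℤ (p * 2) B * (Polynomial.X ^ a *
      (Polynomial.X ^ (2 * (p * a)) - 1) * (Polynomial.X ^ 2 - 1)) =
      (Polynomial.X ^ (p * a + 1) * (Polynomial.X ^ (2 * a) - 1) *
        Polynomial.expand ℤ (p * 1) (Polynomial.X ^ k * (Polynomial.X ^ 2 - 1)) :
          Polynomial ℤ) := by
    rw [← sub_eq_zero]
    apply ev_zero
    rw [map_sub, e2, sub_self]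
  have hpa : 2 * (p * a) ≠ 0 := by positivity
  have hz := Complex.isPrimitiveRoot_exp _ hpa
  set z := Complex.exp (2 * Real.pi * Complex.I / ((2 * (p * a) : ℕ) : ℂ)) with hzd
  have e4 := congrArg (Polynomial.aeval z) e3
  simp only [map_mul, map_sub, map_pow, map_one, Polynomial.aeval_X, mul_one,
    Polynomial.expand_X] at e4
  rw [hz.pow_eq_one, sub_self, mul_zero, zero_mul, mul_zero] at e4
  have z0 : z ≠ 0 := Complex.exp_ne_zero _
  have z1 : z ^ (2 * a) - 1 ≠ 0 := by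
    rw [sub_ne_zero]
    apply hz.pow_ne_one_of_pos_of_lt (by omega)
    have : a < p * a := by nlinarith
    omega
  have z2 : (z ^ p) ^ 2 - 1 ≠ 0 := by
    rw [sub_ne_zero, ← pow_mul]
    apply hz.pow_ne_one_of_pos_of_lt (by omega)
    have : p < p * a := by nlinarith
    omega
  have := e4.symm
  exact (mul_ne_zero (mul_ne_zero (pow_ne_zero _ z0) z1)
    (mul_ne_zero (pow_ne_zero _ (pow_ne_zero _ z0)) z2)) this

end Pool.Agent.H765.SC.CAB
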