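import Mathlib
import Pool.Agent.H765.ST.Closure
import Pool.Agent.H765.MM.Alex
import Pool.Agent.H765.MM.Ann

/-!
# Project SC (helper765): a satellite closed class of knots detected by the coloured Jones function

Notation of `GK/Def.lean`, `DB/Def.lean`, `ST/Def.lean`, `MM/Def.lean`: `J : ℤ → ℚ⟦X⟧` is the unnormalised
coloured Jones function, `v = e^h`, `unknotJ N = [N]`, `hexp b = e^(b h)`, `ev : ℤ[X] → ℚ⟦X⟧`, `X ↦ e^h`.
-/

set_option autoImplicit false

namespace Pool.Agent.H765.SC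

open PowerSeries Pool.Agent.H765.GK Pool.Agent.H765.DB Pool.Agent.H765.ST Pool.Agent.H765.MM

/-- Standard properties of the coloured Jones function of a knot with framing zero: it is odd in the
colour, `J(1) = 1`, the coefficient of `h^n` is a polynomial of degree at most `n + 1` in the colour, `J(N) = [N]`
up to order one, and the leading part of the Melvin-Morton expansion is `(e^y - e^{-y}) / Δ(e^{2y})` with
`Δ` an integral Laurent polynomial, `Δ(1) = 1`. -/
structure Knotlike (J : ℤ → ℚ⟦X⟧) : Prop where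
  odd : ∀ N, J (-N) = - J N
  one : J 1 = 1
  deg : ∀ n, ∃ P : Polynomial ℚ, P.natDegree ≤ n + 1 ∧ ∀ N : ℤ, coeff n (J N) = P.eval (N : ℚ)
  two : ∀ N, X ^ 2 ∣ J N - unknotJ N
  alex : HasAlex (wf J)

/-- `J(N) / [N]` is for all `N ≥ 1` a Laurent polynomial in `v = e^h` with integral coefficients:
`e^{k h} J(N) = [N] f(e^h)` with `f ∈ ℤ[X]`. -/
def Laur (J : ℤ → ℚ⟦X⟧) : Prop :=
  ∀ N : ℕ, 1 ≤ N → ∃ (k : ℕ) (f : Polynomial ℤ), hexp k * J N = unknotJ N * ev f

theorem Knotlike.bd {J : ℤ → ℚ⟦X⟧} (h : Knotlike J) : Bd 1 1 J := fun n =>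
  let ⟨P, h1, h2⟩ := h.deg n
  ⟨P, by omega, h2⟩

theorem Knotlike.poly {J : ℤ → ℚ⟦X⟧} (h : Knotlike J) :
    ∀ n, ∃ P : Polynomial ℚ, ∀ N : ℤ, coeff n (J N) = P.eval (N : ℚ) := fun n =>
  let ⟨P, _, h2⟩ := h.deg n
  ⟨P, h2⟩

theorem Knotlike.knotFn {J : ℤ → ℚ⟦X⟧} (h : Knotlike J) : KnotFn J := ⟨h.odd, h.one, h.poly, h.two⟩

/-- **JOB SUM.**  A connected sum is undetected only if both summands are.
Proof: let `N ≥ 1`.  From `J N * L N * [N]⁻¹ = [N]` and `mul_unknotJ_cancel` (`GK`; `N ≠ 0`): `J N * L N = [N]^2`.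
With `Laur J, Laur L`: `hexp k * J N = [N] ev f`, `hexp l * L N = [N] ev g`, so
`[N]^2 hexp (k + l) = [N]^2 ev (f g)`, `[N] ≠ 0` (`unknotJ_ne`), `hexp (k+l) = ev (X^(k+l))`, and `ev` is injective
(powers of `e^h` are linearly independent; compare `ev_inj` in `IT/Final1.lean`, or: a polynomial `B ≠ 0` with
`B(e^h) = 0` - substitute; or `coeff n (ev B) = ∑ B_i i^n / n!` and Vandermonde).  So `f g = X^(k+l)` in `ℤ[X]`, hence
`f = ± X^a` (`Prime X`: `(Associated..)`, `dvd_prime_pow` and units of `ℤ[X]` are `± 1`).  So `J N = ± hexp (a - k) [N]`.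
Constant coefficients: `coeff 0 (J N) = N = coeff 0 [N]` (from `two`; `KnotFn.t2`), so the sign is `+`; `coeff 1`:
`(a - k) N = 0`, so `a = k` and `J N = [N]`; the same for `L`.  For `N ≤ 0` use that both are odd (`J 0 = 0`:
`KnotFn.zero`, `unknotJ_neg`, `unknotJ_zero`). -/
def S_SUM : Prop := ∀ J L : ℤ → ℚ⟦X⟧, Knotlike J → Knotlike L → Laur J → Laur L →
  (fun N => J N * L N * (unknotJ N)⁻¹) = unknotJ → J = unknotJ ∧ L = unknotJ

/-- **JOB CAB.**  `(p, q)`-cables with `|q| ≥ 2` are always detected.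
Proof: suppose `cableJ p q J = unknotJ`.  `wf_cable` (`MM/Top.lean`) and `wf_unknot`:
`(hexp (pq) - hexp (-pq)) (hexp 1 - hexp (-1)) = (hexp q - hexp (-q)) rescale p (wf J)`.  `hJ.alex`:
`ev (expand 2 B) * wf J = hexp k (hexp 1 - hexp (-1))`; apply `rescale p` (theorem in `MM/Alex.lean`, line 31, and
`rescale_hexp`): `ev (expand (2p) B) * rescale p (wf J) = hexp (pk) (hexp p - hexp (-p))`.  Together
`ev (expand (2p) B) (hexp (pq) - hexp (-pq)) (hexp 1 - hexp (-1)) = (hexp q - hexp (-q)) hexp (pk) (hexp p - hexp (-p))`.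
Let `a = |q| ≥ 2`; both sides are odd in `q`, so the same holds with `a` for `q`.  Multiply by a suitable `hexp` to
get an identity of `ev`s of polynomials and use that `ev` is injective (see JOB SUM):
`expand (2p) B * (X^(2pa) - 1) (X^2 - 1) X^s = (X^(2a) - 1) (X^(2p) - 1) X^t` in `ℤ[X]`.  Evaluate in `ℂ` at
`z = exp (π i / (p a))`, a primitive `2pa`-th root of unity: the left side is `0`, the right side is not, because
`2 a < 2 p a` and `2 p < 2 p a` (`p, a ≥ 2`), so `z^(2a) ≠ 1`, `z^(2p) ≠ 1`.  Contradiction. -/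
def S_CAB : Prop := ∀ J : ℤ → ℚ⟦X⟧, Knotlike J → ∀ (p : ℕ) (q : ℤ), 2 ≤ p → IsCoprime (p : ℤ) q →
  2 ≤ q.natAbs → cableJ p q J ≠ unknotJ

/-- **JOB ANN.**  The leading coefficient of the annulus coefficients with `m` full twists.
Proof: `i = 0`: `annulus J m 0 = J 1 = 1`.  Let `i ≥ 1`.  `exists_g` (`MM/Ann.lean`, `a = 1`, `s = 0`): `J (2k+1) = unknotJ (2k+1) * g k`, `Bx 1 0 g`, and
`annulus_eq`: `annulus J m i = qfac i * T i G` with `G k = hexp (2 m k (k+1)) * g k`; the constant coefficient of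
`qfac i` is `i!` (`constCoeff_qfac`).  The constant coefficient of `g k` is `1` (constant coefficients of
`J (2k+1)` and `[2k+1]` are both `2k+1`).  By the form of `hexp` and `Bx 1 0 g`, `coeff n (G k) = P_n(κ)`, `κ = k (k+1)`, with
`deg P_n ≤ n` and `P_i = c κ^i + (degree < i)`, `c = (2m)^i / i!` (`∑_l (2 m κ)^l / l! * g_{i-l}(κ)`, `deg g_{i-l} ≤ (i-l)/2`).
Also `ph i k` (`DB/Tf.lean`) has constant coefficient `(nb i).eval κ`, monic of degree `i` in `κ` (`ph_const`,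
`nb_monic`, `nb_natDegree`, `MM/TBound.lean`).  Let `G'' k` be the truncation of `G k - c X^i ph i k` to the coefficients `n ≤ i`: its
coefficient `n < i` is `P_n(κ)`, `2 deg ≤ 2 n ≤ n + (i - 1)`, its coefficient `i` is `P_i - c nb_i`, of degree `≤ i - 1`,
`2 (i - 1) ≤ i + (i - 1)`, and the others are `0`.  So `Bx 1 (i-1) G''` and `T_dvd` (`MM/TBound.lean`, `a = 1`, `s = i - 1`,
`r = i + 1`: `1 * (i+1) + (i-1) < 2 i + 1`) gives `X^(i+1) ∣ T i G''`.  `T` is linear (`T_add`, `T_mul`), `T i (ph i) = 1`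
(`T_ph_self`), and `G k - c X^i ph i k - G'' k` is divisible by `X^(i+1)` for every `k`, hence
`T i G ≡ c X^i` modulo `X^(i+1)`.  So `coeff i (annulus J m i) = i! c = (2m)^i`. -/
def S_ANN : Prop := ∀ J : ℤ → ℚ⟦X⟧, Knotlike J → ∀ (m : ℤ) (i : ℕ),
  coeff i (annulus J m i) = (2 * (m : ℚ)) ^ i

/-- **JOB PLU** (uses `S_ANN`).  The boundary of the plumbing of two annuli, the second one twisted.
Proof: by `h : S_ANN`, `annulus L n i ≠ 0` for all `i` (`n ≠ 0`).  `plumb_trivial` and `annulus_unknot`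
(`DB/Lead.lean`) give `plumbJ unknotJ 0 L n = unknotJ`, so `plumb_determines` (`ST/Wh.lean`, with `J' = unknotJ`, `m' = 0`,
`L' = L`, `n' = n`) gives `annulus J m i * annulus L n i = annulus unknotJ 0 i * annulus L n i`, so
`annulus J m i = annulus unknotJ 0 i` for all `i`.  Let `J' N = hexp (m (N^2-1) / 2) * J N`; then
`annulus J m i = annulus J' 0 i` (by definition, as `m ((2k+1)^2 - 1) / 2 = 2 m k (k+1)`; `hexp_mul`-type lemmas), and
`annulus_determines` (`m := 0`) gives `hexp (2 m k (k+1)) J (2k+1) = [2k+1]` for all `k`.  For `k = 1` the coefficient of `h`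
is `4 m * 3 + coeff 1 (J 3) = coeff 1 [3]`, and `coeff 1 (J 3) = coeff 1 [3]` (`two`), so `m = 0`.  Then
`J (2k+1) = [2k+1]`, and `J = unknotJ` by `PF.ext_odd` (`ST/PF.lean`; `PF.unknot`; `PF J` is `hJ.poly`).  Compare
`double_same` in `ST/Cls.lean`. -/
def S_PLU : Prop := ∀ J L : ℤ → ℚ⟦X⟧, Knotlike J → Knotlike L → ∀ m n : ℤ, n ≠ 0 →
  plumbJ J m L n = unknotJ → m = 0 ∧ J = unknotJ

end Pool.Agent.H765.SC
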