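import Mathlib
import Pool.Agent.H765.SC.Stm

/-!
# Project SC (helper765), part 2: closure of the standard properties under plumbing; Alexander polynomials
-/

set_option autoImplicit false

namespace Pool.Agent.H765.SC

open PowerSeries Pool.Agent.H765.GK Pool.Agent.H765.DB Pool.Agent.H765.ST Pool.Agent.H765.MM

/-- **JOB PLX** (uses `S_ANN`).  The leading part (Alexander polynomial) of the boundary of a plumbing of annuli,
`Δ = 1 + m n (t - 2 + t^{-1})`.
Proof: let `D = hexp 1 - hexp (-1)`, `E = 1 + m n D^2`, `γ_i = annulus J m i * annulus L n i`; `plumbJ = cyc γ` (`plumb_eq_cyc`,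
`MM/Cyc.lean`).  By `annulus_dvd` (`MM/Ann.lean`; `Bd 1 1 J` implies `Bd 2 1 J`) and `h : S_ANN`, `γ_i = X^(2i) u_i` with
`constantCoeff u_i = (2m)^i (2n)^i = (4 m n)^i`.  `D = X * dd` with `constantCoeff dd = 2` (`X_mul_dd`).
(1) For each `i` the function `N ↦ D * (FF i N * γ_i)` has top part `(m n)^i D^(2i+1)`:
`D * [N] = hexp N - hexp (-N)` (`unknotJ_mul`) is `IsTop` with top `D`, and
`D^2 [N+j+1] [N-j-1] = (hexp (N+j+1) - hexp (-(N+j+1))) (hexp (N-j-1) - ...)` is `IsTop` with top `D^2` (`IsTop.hexp`,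
`IsTop.comp` with shift, `IsTop.sub`, `IsTop.mul` in `MM/Top.lean`); the product over `j < i`;
`D * FF i N * γ_i = (D^(2i+1) FF i N) * (u_i / dd^(2i))` since `γ_i = X^(2i) u_i = D^(2i) u_i dd^(-2i)`; multiplying by a
constant power series `b` multiplies the top part by `constantCoeff b` (lemma: `IsTop f t → IsTop (b * f) (C (constantCoeff b) * t)`),
here `(4mn)^i / 2^(2i) = (m n)^i`.
(2) Let `n₀` be given.  Modulo `X^(n₀+1)` only the terms with `2 i ≤ n₀ + 1` count (`cyc_trunc` as in the proof of `Bd.cyc`), so the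
coefficient of `X^n₀` of `D * plumbJ N` is that of `∑_{i < n₀ + 2} (-1)^i D FF i N γ_i`, a polynomial of degree `≤ n₀` with
top coefficient `coeff n₀ (∑_{i<n₀+2} (-m n)^i D^(2i+1))`.  So `coeff n₀ (wf (plumbJ J m L n))` is this number (`wf_top`
for `Bd 1 1 (plumbJ ...)`, `Bd.plumb`, and uniqueness of the top part, `poly_unique`).
(3) `E * ∑_{i<M} (-mnD^2)^i = 1 - (-mnD^2)^M` and `X^M ∣ D^(2M)`, so `E * wf = D` coefficientwise. -/
def S_PLX : Prop := ∀ J L : ℤ → ℚ⟦X⟧, Knotlike J → Knotlike L → ∀ m n : ℤ,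
  (1 + C ((m : ℚ) * n) * (hexp 1 - hexp (-1)) ^ 2) * wf (plumbJ J m L n) = hexp 1 - hexp (-1)

/-- **JOB PLC** (uses `S_PLX`).  The standard properties are inherited by plumbings.
Proof: `odd`: `plumb_neg` (`DB/Lead.lean`); `one`: `plumb_one`; `deg`: `Bd.plumb` (`MM/Ann.lean`); `two`: `plumbJ N - [N]` is `[N]` times
the terms `i ≥ 1`, each divisible by `X^i * X^i` (`annulus_dvd`), the term `i = 0` is `annulus J m 0 * annulus L n 0 = 1`
(compare `plumb_trivial`, or `cyc_trunc`; `N = 0`: both are `0`); `alex`: `B = m n X^2 + (1 - 2 m n) X + m n`, `k = 2`: `B(1) = 1` and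
`ev (expand 2 B) = m n e^{4h} + (1 - 2 m n) e^{2h} + m n = e^{2h} (1 + m n (e^h - e^{-h})^2)`, and `h : S_PLX`. -/
def S_PLC : Prop := ∀ J L : ℤ → ℚ⟦X⟧, Knotlike J → Knotlike L → ∀ m n : ℤ, Knotlike (plumbJ J m L n)

/-- **JOB ALX.**  If a connected sum is not detected then both Alexander polynomials are trivial.
Proof: `wf_sum` (`MM/Top.lean`; `J 0 = 0` by `KnotFn.zero`) and `wf_unknot`: with `D = hexp 1 - hexp (-1)`, `D * D = wf J * wf L`.
`ev (expand 2 B) * wf J = hexp k * D`, `ev (expand 2 B') * wf L = hexp k' * D`, so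
`ev (expand 2 (B B')) * D^2 = hexp (k + k') * D^2`, `ev (expand 2 (B B')) = hexp (k+k')`; multiply by `hexp j`, `j ∈ ℕ` with
`j + k + k' ≥ 0` and use that `ev` is injective (`ev_injective`, see `SC/SUM.lean` in the tgz): `X^j expand 2 (B B') = X^(j+k+k')`, so
`expand 2 B` divides a power of `X`, hence it is `± X^a`; `B(1) = 1` gives the sign `+`.  So
`wf J = hexp (k - a) * D`.  `wf J` has no even coefficients (`wf_odd`): the coefficient of `h^2` of `hexp c * D` is `2 c`
(`D = 2 h + O(h^3)`), so `c = k - a = 0` and `wf J = D = wf unknotJ`.  The same for `L`. -/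
def S_ALX : Prop := ∀ J L : ℤ → ℚ⟦X⟧, Knotlike J → Knotlike L →
  (fun N => J N * L N * (unknotJ N)⁻¹) = unknotJ → wf J = wf unknotJ ∧ wf L = wf unknotJ

end Pool.Agent.H765.SC
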