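import Mathlib
import Pool.Agent.H765.SC.Stm2

/-! A satellite closed class of knots detected by the coloured Jones function. -/

set_option autoImplicit false

namespace Pool.Agent.H765.SC

open PowerSeries Pool.Agent.H765.GK Pool.Agent.H765.DB Pool.Agent.H765.ST Pool.Agent.H765.MM

noncomputable section

theorem bd_to_deg {J : ℤ → ℚ⟦X⟧} (h : Bd 1 1 J) : ∀ n, ∃ P : Polynomial ℚ, P.natDegree ≤ n + 1 ∧
    ∀ N : ℤ, coeff n (J N) = P.eval (N : ℚ) := fun n =>
  let ⟨P, h1, h2⟩ := h n
  ⟨P, by omega, h2⟩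

theorem knotlike_unknot : Knotlike unknotJ where
  odd := knotFn_unknot.odd
  one := knotFn_unknot.one
  deg := bd_to_deg Bd.unknot1
  two := knotFn_unknot.two
  alex := ⟨1, 0, by simp, by rw [wf_unknot, map_one, map_one, Int.cast_zero, hexp_zero]⟩

theorem Knotlike.cable {J : ℤ → ℚ⟦X⟧} (h : Knotlike J) {p : ℕ} {q : ℤ} (hp : 2 ≤ p)
    (hq : IsCoprime (p : ℤ) q) : Knotlike (cableJ p q J) := by
  have hq0 : q ≠ 0 := by
    rintro rfl
    rw [isCoprime_zero_right, Int.isUnit_iff] at hq
    omega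
  have k := h.knotFn.cable p q
  exact ⟨k.odd, k.one, bd_to_deg (Bd.cable h.odd h.bd p hq0), k.two,
    HasAlex.cable h.odd h.bd h.alex hp hq⟩

theorem Knotlike.sum {J L : ℤ → ℚ⟦X⟧} (h : Knotlike J) (hL : Knotlike L) :
    Knotlike (fun N => J N * L N * (unknotJ N)⁻¹) := by
  have k := h.knotFn.sum hL.knotFn
  refine ⟨k.odd, k.one, bd_to_deg (Bd.sum le_rfl h.bd h.knotFn.zero hL.bd hL.knotFn.zero), k.two, ?_⟩
  obtain ⟨B, k, hB, hw⟩ := h.alex
  obtain ⟨B', k', hB', hw'⟩ := hL.alex
  have hs := wf_sum h.bd h.knotFn.zero hL.bd hL.knotFn.zero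
  refine ⟨B * B', k + k', by rw [Polynomial.eval_mul, hB, hB', one_mul], ?_⟩
  have hne : hexp 1 - hexp (-1) ≠ 0 := hexp_sub_ne one_ne_zero
  apply mul_left_cancel₀ hne
  rw [map_mul, map_mul]
  have e : hexp ((k + k' : ℤ) : ℚ) = hexp k * hexp k' := by
    rw [← hexp_add]
    push_cast
    rfl
  rw [e]
  linear_combination (ev (Polynomial.expand ℤ 2 B) * ev (Polynomial.expand ℤ 2 B')) * hs +
    (ev (Polynomial.expand ℤ 2 B') * wf L) * hw +
    (hexp k * (hexp 1 - hexp (-1))) * hw'

theorem knotlike_graph (K : GraphKnot) : Knotlike (colouredJones K) :=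
  ⟨(knotFn_graph K).odd, (knotFn_graph K).one, bd_to_deg (graph_bd K), (knotFn_graph K).two,
    graph_alex K⟩

/-- The knots obtained from the unknot and from given knots (the seeds, indexed by `ι`) by
* `cable p q K`, the `(p, q)`-cable, `p ≥ 2`, any `q` coprime to `p`,
* `sum K L`, the connected sum,
* `plumb K m L n`, `n ≠ 0`: the boundary of the plumbing of the annulus with core `K` and `m` full twists and the
  annulus with core `L` and `n` full twists (`m` arbitrary; `L` the unknot and `n = ± 1`: all Whitehead doubles),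
* `sat P K`, the satellite with an unknotted pattern `P` of winding number `w ≠ 0`. -/
inductive Sat (ι : Type) : Type
  | unknot : Sat ι
  | seed (i : ι) : Sat ι
  | cable (p : ℕ) (q : ℤ) (hp : 2 ≤ p) (hq : IsCoprime (p : ℤ) q) (K : Sat ι) : Sat ι
  | sum (K L : Sat ι) : Sat ι
  | plumb (K : Sat ι) (m : ℤ) (L : Sat ι) (n : ℤ) (hn : n ≠ 0) : Sat ι
  | sat (w : ℤ) (hw : w ≠ 0) (P : Pattern w) (hP : ∀ N : ℕ, P.sat unknotJ N = unknotJ N)
      (K : Sat ι) : Sat ι

variable {ι : Type}

/-- The coloured Jones function, given those of the seeds. -/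
def Sat.jones (F : ι → ℤ → ℚ⟦X⟧) : Sat ι → ℤ → ℚ⟦X⟧
  | .unknot => unknotJ
  | .seed i => F i
  | .cable p q _ _ K => cableJ p q (K.jones F)
  | .sum K L => fun N => K.jones F N * L.jones F N * (unknotJ N)⁻¹
  | .plumb K m L n _ => plumbJ (K.jones F) m (L.jones F) n
  | .sat _ _ P _ K => fun N =>
    if 0 ≤ N then P.sat (K.jones F) N.natAbs else - P.sat (K.jones F) N.natAbs

/-- The evident unknots among these knots (the seeds are knotted). -/
def Sat.Trivial : Sat ι → Prop
  | .unknot => True
  | .seed _ => False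
  | .cable _ q _ _ K => q.natAbs = 1 ∧ K.Trivial
  | .sum K L => K.Trivial ∧ L.Trivial
  | .plumb K m _ _ _ => m = 0 ∧ K.Trivial
  | .sat _ _ _ _ K => K.Trivial

/-- Two known facts where they are used: for a connected sum of two knots with trivial Alexander polynomials
(leading parts of the Melvin-Morton expansions as for the unknot), `J(N) / [N]` is a Laurent polynomial for both
summands; for the satellites with an unknotted pattern of non-zero winding number, the standard properties of the
coloured Jones function. There is no condition for knots obtained by cabling, plumbing and connected sums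
with at least one non-trivial Alexander polynomial. -/
def Sat.Good (F : ι → ℤ → ℚ⟦X⟧) : Sat ι → Prop
  | .unknot => True
  | .seed _ => True
  | .cable _ _ _ _ K => K.Good F
  | .sum K L => K.Good F ∧ L.Good F ∧
      (wf (K.jones F) = wf unknotJ → wf (L.jones F) = wf unknotJ →
        Laur (K.jones F) ∧ Laur (L.jones F))
  | .plumb K _ L _ _ => K.Good F ∧ L.Good F
  | .sat w hw P hP K => K.Good F ∧ Knotlike ((Sat.sat w hw P hP K).jones F)

theorem Sat.main (h1 : S_SUM) (h2 : S_CAB) (h3 : S_PLU) (h4 : S_PLC) (h5 : S_ALX)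
    {F : ι → ℤ → ℚ⟦X⟧} (hF : ∀ i, Knotlike (F i)) (hne : ∀ i, F i ≠ unknotJ) (K : Sat ι)
    (hK : K.Good F) : Knotlike (K.jones F) ∧ (K.jones F = unknotJ ↔ K.Trivial) := by
  induction K with
  | unknot => exact ⟨knotlike_unknot, fun _ => trivial, fun _ => rfl⟩
  | seed i => exact ⟨hF i, fun h => hne i h, fun h => h.elim⟩
  | cable p q hp hq K ih =>
    obtain ⟨a1, a2⟩ := ih hK
    refine ⟨a1.cable hp hq, ?_⟩
    change cableJ p q (K.jones F) = unknotJ ↔ q.natAbs = 1 ∧ K.Trivial
    rw [← a2]
    have hq0 : q ≠ 0 := by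
      rintro rfl
      rw [isCoprime_zero_right, Int.isUnit_iff] at hq
      omega
    constructor
    · intro h
      have hq1 : q.natAbs = 1 := by
        by_contra hcon
        exact h2 _ a1 p q hp hq (by omega) h
      have hε : q = 1 ∨ q = -1 := by omega
      refine ⟨hq1, ?_⟩
      apply cable_injective (show p ≠ 0 by omega) q a1.knotFn knotFn_unknot
      rw [h, cableJ_one p q hε]
    · rintro ⟨hq1, h⟩
      have hε : q = 1 ∨ q = -1 := by omega
      rw [h, cableJ_one p q hε]
  | sum K L ihK ihL =>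
    obtain ⟨g1, g2, g3⟩ := hK
    obtain ⟨a1, a2⟩ := ihK g1
    obtain ⟨b1, b2⟩ := ihL g2
    refine ⟨a1.sum b1, ?_⟩
    change (fun N => K.jones F N * L.jones F N * (unknotJ N)⁻¹) = unknotJ ↔ K.Trivial ∧ L.Trivial
    rw [← a2, ← b2]
    constructor
    · intro h
      obtain ⟨c1, c2⟩ := h5 _ _ a1 b1 h
      obtain ⟨d1, d2⟩ := g3 c1 c2
      exact h1 _ _ a1 b1 d1 d2 h
    · rintro ⟨hK, hL⟩
      rw [hK, hL]
      funext N
      rcases eq_or_ne N 0 with rfl | hN
      · rw [unknotJ_zero]; simp
      · rw [mul_assoc, mul_unknotJ_cancel hN, mul_one]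
  | plumb K m L n hn ihK ihL =>
    obtain ⟨g1, g2⟩ := hK
    obtain ⟨a1, a2⟩ := ihK g1
    obtain ⟨b1, b2⟩ := ihL g2
    refine ⟨h4 _ _ a1 b1 m n, ?_⟩
    change plumbJ (K.jones F) m (L.jones F) n = unknotJ ↔ m = 0 ∧ K.Trivial
    rw [← a2]
    constructor
    · exact h3 _ _ a1 b1 m n hn
    · rintro ⟨rfl, h⟩
      rw [h]
      apply plumb_trivial unknotJ_one b1.one
      intro i hi
      rw [annulus_unknot i hi, zero_mul]
  | sat w hw P hP K ih =>
    obtain ⟨g1, g2⟩ := hK
    obtain ⟨a1, a2⟩ := ih g1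
    refine ⟨g2, ?_⟩
    change (fun N : ℤ => if 0 ≤ N then P.sat (K.jones F) N.natAbs else
      - P.sat (K.jones F) N.natAbs) = unknotJ ↔ K.Trivial
    rw [← a2]
    constructor
    · intro h
      apply sat_injective hw P a1.odd knotFn_unknot.odd a1.poly knotFn_unknot.poly
      intro N
      rw [hP]
      have h4 := congrFun h (N : ℤ)
      beta_reduce at h4
      rw [if_pos (Int.natCast_nonneg N), Int.natAbs_natCast] at h4
      exact h4
    · intro h
      rw [h]
      funext N
      rw [hP]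
      split_ifs with hN
      · congr 1
        omega
      · rw [← unknotJ_neg]
        congr 1
        omega

end

end Pool.Agent.H765.SC
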