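import Pool.Agent.H765.SC.Stm2

/-!
# Project SC part 2, job PLC (helper236, for helper765): plumbings inherit the standard properties
-/

set_option autoImplicit false

namespace Pool.Agent.H765.SC.PLC

open Pool.Agent.H765.SC PowerSeries Pool.Agent.H765.GK Pool.Agent.H765.DB Pool.Agent.H765.ST
  Pool.Agent.H765.MM

/-- `Δ = m n t + (1 - 2 m n) + m n t^{-1}`, times `t` -/
noncomputable def BB (m n : ℤ) : Polynomial ℤ :=
  Polynomial.C (m * n) * Polynomial.X ^ 2 + Polynomial.C (1 - 2 * (m * n)) * Polynomial.X +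
    Polynomial.C (m * n)

theorem BB_one (m n : ℤ) : (BB m n).eval 1 = 1 := by
  unfold BB
  simp only [Polynomial.eval_add, Polynomial.eval_mul, Polynomial.eval_C, Polynomial.eval_pow,
    Polynomial.eval_X]
  ring

theorem ev_quad (a b : ℤ) : ev (Polynomial.expand ℤ 2 (Polynomial.C a * Polynomial.X ^ 2 +
    Polynomial.C b * Polynomial.X + Polynomial.C a)) =
    C (a : ℚ) * hexp 1 ^ 4 + C (b : ℚ) * hexp 1 ^ 2 + C (a : ℚ) := by
  have hC : ∀ a : ℤ, ev (Polynomial.C a) = C (a : ℚ) := by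
    intro a
    unfold ev
    rw [Polynomial.coe_eval₂RingHom, Polynomial.eval₂_C]
    simp
  have hX : ev Polynomial.X = hexp 1 := by
    unfold ev
    rw [Polynomial.coe_eval₂RingHom, Polynomial.eval₂_X]
  simp only [map_add, map_mul, map_pow, Polynomial.expand_C, Polynomial.expand_X, hC, hX]
  ring

theorem ev_BB (m n : ℤ) : ev (Polynomial.expand ℤ 2 (BB m n)) =
    C ((m : ℚ) * n) * hexp 1 ^ 4 + (1 - 2 * C ((m : ℚ) * n)) * hexp 1 ^ 2 + C ((m : ℚ) * n) := by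
  have e1 : C (((m * n : ℤ)) : ℚ) = C ((m : ℚ) * n) := by
    push_cast
    rfl
  have e2 : C (((1 - 2 * (m * n) : ℤ)) : ℚ) = 1 - 2 * C ((m : ℚ) * n) := by
    have h1 : (((1 - 2 * (m * n) : ℤ)) : ℚ) = 1 - 2 * ((m : ℚ) * n) := by
      push_cast
      ring
    have h2 : ∀ x : ℚ, C (1 - 2 * x) = 1 - 2 * C x := by
      intro x
      rw [map_sub, map_one, map_mul, map_ofNat]
    rw [h1, h2]
  unfold BB
  rw [ev_quad, e1, e2]

theorem two_dvd {J L : ℤ → ℚ⟦X⟧} (hJ : Knotlike J) (hL : Knotlike L) (m n : ℤ) (N : ℤ) :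
    X ^ 2 ∣ plumbJ J m L n N - unknotJ N := by
  have bJ : Bd 2 1 J := hJ.bd.slope one_le_two
  have bL : Bd 2 1 L := hL.bd.slope one_le_two
  rcases eq_or_ne N 0 with rfl | h0
  · rw [plumb_zero, unknotJ_zero, sub_zero]
    exact dvd_zero _
  unfold plumbJ
  obtain ⟨M, hM⟩ : ∃ M, N.natAbs = M + 1 := ⟨N.natAbs - 1, by omega⟩
  rw [hM, Finset.sum_range_succ', annulus_zero hJ.one, annulus_zero hL.one, Finset.prod_range_zero,
    pow_zero, one_mul, one_mul, mul_add, mul_one, add_sub_cancel_right]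
  refine Dvd.dvd.mul_left (Finset.dvd_sum fun i _ => Dvd.dvd.mul_left ?_ _) _
  refine (pow_dvd_pow _ (show 2 ≤ (i + 1) + (i + 1) by omega)).trans ?_
  rw [pow_add]
  exact mul_dvd_mul (annulus_dvd hJ.odd bJ m (i + 1)) (annulus_dvd hL.odd bL n (i + 1))

theorem t_PLC (h : S_PLX) : S_PLC := by
  intro J L hJ hL m n
  have bJ : Bd 2 1 J := hJ.bd.slope one_le_two
  have bL : Bd 2 1 L := hL.bd.slope one_le_two
  refine ⟨plumb_neg J L m n, plumb_one hJ.one hL.one m n, fun k => ?_, two_dvd hJ hL m n, ?_⟩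
  · obtain ⟨P, h1, h2⟩ := Bd.plumb hJ.odd bJ hL.odd bL m n k
    exact ⟨P, by omega, h2⟩
  · refine ⟨BB m n, 2, BB_one m n, ?_⟩
    have h1 := h J L hJ hL m n
    have h2 : hexp 1 * hexp (-1) = 1 := by
      rw [← hexp_add]
      norm_num [hexp_zero]
    have h3 : hexp ((2 : ℤ) : ℚ) = hexp 1 ^ 2 := by
      rw [hexp_nat]
      norm_num
    rw [ev_BB, h3]
    linear_combination hexp 1 ^ 2 * h1 +
      C ((m : ℚ) * n) * (2 * hexp 1 ^ 2 - 1 - hexp 1 * hexp (-1)) * wf (plumbJ J m L n) * h2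

end Pool.Agent.H765.SC.PLC
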