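import Pool.Agent.H765.SC.Stm2

/-!
# Project SC (helper765), part 2, job PLX: the leading part of a plumbing of annuli (helper181)
-/

set_option autoImplicit false

namespace Pool.Agent.H765.SC.PLX

open PowerSeries Pool.Agent.H765.GK Pool.Agent.H765.DB Pool.Agent.H765.ST Pool.Agent.H765.MM
  Pool.Agent.H765.SC

/-- `e^h - e^{-h}` -/
noncomputable def D : ℚ⟦X⟧ := hexp 1 - hexp (-1)

theorem D_eq : D = X * dd := X_mul_dd.symm

theorem top_const (b : ℚ⟦X⟧) : IsTop (fun _ => b) (C (constantCoeff b)) := by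
  intro n
  refine ⟨Polynomial.C (coeff n b), ?_, ?_, fun N => by rw [Polynomial.eval_C]⟩
  · rw [Polynomial.natDegree_C]
    exact Nat.zero_le _
  · rw [Polynomial.coeff_C, coeff_C]
    split_ifs with h
    · rw [h, coeff_zero_eq_constantCoeff_apply]
    · rfl

theorem top_const_mul {f : ℤ → ℚ⟦X⟧} {t : ℚ⟦X⟧} (h : IsTop f t) (b : ℚ⟦X⟧) :
    IsTop (fun N => b * f N) (C (constantCoeff b) * t) := (top_const b).mul h

theorem top_add {f g : ℤ → ℚ⟦X⟧} {t u : ℚ⟦X⟧} (h : IsTop f t) (h' : IsTop g u) :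
    IsTop (fun N => f N + g N) (t + u) := by
  intro n
  obtain ⟨P, h0, h1, h2⟩ := h n
  obtain ⟨Q, h3, h4, h5⟩ := h' n
  exact ⟨P + Q, (Polynomial.natDegree_add_le _ _).trans (max_le h0 h3),
    by rw [Polynomial.coeff_add, h1, h4, map_add],
    fun N => by rw [map_add, h2, h5, Polynomial.eval_add]⟩

theorem top_unknot : IsTop (fun N => D * unknotJ N) D := by
  have a2 := (IsTop.hexp 1).sub (IsTop.hexp (-1))
  apply a2.congr
  intro N
  rw [D, unknotJ_mul, one_mul, neg_one_mul]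

theorem top_unknot_shift (c : ℤ) : IsTop (fun N => D * unknotJ (N + c)) D := by
  have h := top_unknot.comp 1 c
  rw [Int.cast_one, rescale_one, RingHom.id_apply] at h
  apply h.congr
  intro N
  rw [one_mul]

theorem FF_succ (i : ℕ) (N : ℤ) : FF (i + 1) N =
    FF i N * (unknotJ (N + (i + 1)) * unknotJ (N + -(i + 1))) := by
  unfold FF
  rw [Finset.prod_range_succ, ← sub_eq_add_neg, mul_assoc]

theorem top_FF (i : ℕ) : IsTop (fun N => D ^ (2 * i + 1) * FF i N) (D ^ (2 * i + 1)) := by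
  induction i with
  | zero =>
    have h := top_unknot
    rw [mul_zero, zero_add, pow_one]
    apply h.congr
    intro N
    rw [FF, Finset.range_zero, Finset.prod_empty, mul_one]
  | succ i ih =>
    have h := (ih.mul (top_unknot_shift (i + 1))).mul (top_unknot_shift (-(i + 1)))
    have e : D ^ (2 * (i + 1) + 1) = D ^ (2 * i + 1) * D * D := by ring
    rw [e]
    apply h.congr
    intro N
    rw [FF_succ]
    ring

/-- one term -/
theorem top_term {γ u : ℚ⟦X⟧} {i : ℕ} {q : ℚ} (hγ : γ = X ^ (2 * i) * u)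
    (hu : constantCoeff u = (4 * q) ^ i) :
    IsTop (fun N => D * (FF i N * γ)) (C (q ^ i) * D ^ (2 * i + 1)) := by
  have h := top_const_mul (top_FF i) (u * dd⁻¹ ^ (2 * i))
  have e1 : constantCoeff (u * dd⁻¹ ^ (2 * i)) = q ^ i := by
    have e2 : constantCoeff (dd⁻¹) = 1 / 2 := by
      have := congrArg constantCoeff dd_inv
      rw [map_mul, dd_const, map_one] at this
      linarith
    rw [map_mul, map_pow, e2, hu, pow_mul, ← mul_pow]
    congr 1
    ring
  rw [e1] at h
  apply h.congr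
  intro N
  have e3 : dd⁻¹ ^ (2 * i) * dd ^ (2 * i) = 1 := by rw [← mul_pow, dd_inv, one_pow]
  have e4 : D ^ (2 * i + 1) = X ^ (2 * i) * dd ^ (2 * i) * D := by
    rw [pow_succ, D_eq, mul_pow]
  rw [e4, hγ]
  linear_combination (u * X ^ (2 * i) * D * FF i N) * e3

/-- finite sums of terms -/
theorem top_sum {γ : ℕ → ℚ⟦X⟧} {q : ℚ} (h : ∀ i, ∃ u : ℚ⟦X⟧, γ i = X ^ (2 * i) * u ∧
    constantCoeff u = (4 * q) ^ i) (M : ℕ) :
    IsTop (fun N => D * ∑ i ∈ Finset.range M, (-1) ^ i * (FF i N * γ i))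
      (D * ∑ i ∈ Finset.range M, (-(C q * D ^ 2)) ^ i) := by
  induction M with
  | zero =>
    intro n
    refine ⟨0, by simp, by simp, fun N => by simp⟩
  | succ M ih =>
    obtain ⟨u, hu, hu1⟩ := h M
    have h1 := top_const_mul (top_term hu hu1) ((-1) ^ M)
    have h2 := top_add ih h1
    have e : D * ∑ i ∈ Finset.range (M + 1), (-(C q * D ^ 2)) ^ i =
        D * ∑ i ∈ Finset.range M, (-(C q * D ^ 2)) ^ i +
          C (constantCoeff ((-1 : ℚ⟦X⟧) ^ M)) * (C (q ^ M) * D ^ (2 * M + 1)) := by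
      rw [Finset.sum_range_succ, mul_add, map_pow, map_neg, map_one, map_pow, map_neg, map_one, map_pow]
      congr 1
      rw [neg_pow, mul_pow, ← pow_mul]
      ring
    rw [e]
    apply h2.congr
    intro N
    rw [Finset.sum_range_succ]
    ring

theorem t_PLX (h : S_ANN) : S_PLX := by
  intro J L hJ hL m n
  set γ : ℕ → ℚ⟦X⟧ := fun i => annulus J m i * annulus L n i with hγdef
  set q : ℚ := (m : ℚ) * n with hq
  have hJ2 : Bd 2 1 J := hJ.bd.slope one_le_two
  have hL2 : Bd 2 1 L := hL.bd.slope one_le_two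
  have hγ : ∀ i, ∃ u : ℚ⟦X⟧, γ i = X ^ (2 * i) * u ∧ constantCoeff u = (4 * q) ^ i := by
    intro i
    obtain ⟨a, ha⟩ := annulus_dvd hJ.odd hJ2 m i
    obtain ⟨b, hb⟩ := annulus_dvd hL.odd hL2 n i
    refine ⟨a * b, ?_, ?_⟩
    · rw [hγdef]
      beta_reduce
      rw [ha, hb]
      ring
    · have ca : constantCoeff a = (2 * (m : ℚ)) ^ i := by
        rw [← h J hJ m i, ha, coeff_lead]
      have cb : constantCoeff b = (2 * (n : ℚ)) ^ i := by
        rw [← h L hL n i, hb, coeff_lead]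
      rw [map_mul, ca, cb, ← mul_pow]
      congr 1
      rw [hq]
      ring
  have hdvd : ∀ i, X ^ (2 * i) ∣ γ i := fun i => by
    obtain ⟨u, hu, -⟩ := hγ i
    exact ⟨u, hu⟩
  have hpl : plumbJ J m L n = cyc γ := plumb_eq_cyc J L m n
  have htop : IsTop (fun N => D * plumbJ J m L n N) (wf (plumbJ J m L n)) :=
    wf_top (Bd.plumb hJ.odd hJ2 hL.odd hL2 m n)
  set W := wf (plumbJ J m L n) with hW
  -- the coefficients of the leading part
  have hS : ∀ M, X ^ M ∣ W - D * ∑ i ∈ Finset.range M, (-(C q * D ^ 2)) ^ i := by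
    intro M
    rw [X_pow_dvd_iff]
    intro k hk
    obtain ⟨P, -, hP1, hP2⟩ := htop k
    obtain ⟨Q, -, hQ1, hQ2⟩ := top_sum hγ M k
    rw [map_sub, ← hP1, ← hQ1, sub_eq_zero]
    congr 1
    apply poly_unique
    intro N
    rw [← hP2, ← hQ2]
    have h2 := cyc_trunc (γ := γ) (n := k) (M := M) (fun i hi =>
      (pow_dvd_pow _ (by omega)).trans (hdvd i)) N
    have h3 := Dvd.dvd.mul_left h2 D
    rw [X_pow_dvd_iff] at h3
    have h4 := h3 k (Nat.lt_succ_self k)
    rw [mul_sub, map_sub, sub_eq_zero] at h4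
    rw [hpl]
    exact h4
  have hXD : X ∣ D := ⟨dd, D_eq⟩
  have key : ∀ M, X ^ M ∣ (1 + C q * D ^ 2) * W - D := by
    intro M
    have e : (1 + C q * D ^ 2) * W - D =
        (1 + C q * D ^ 2) * (W - D * ∑ i ∈ Finset.range M, (-(C q * D ^ 2)) ^ i) -
          D * (-(C q * D ^ 2)) ^ M := by
      have g := mul_neg_geom_sum (-(C q * D ^ 2)) M
      rw [sub_neg_eq_add] at g
      linear_combination D * g
    rw [e]
    apply dvd_sub
    · exact Dvd.dvd.mul_left (hS M) _
    · apply Dvd.dvd.mul_left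
      apply pow_dvd_pow_of_dvd
      rw [dvd_neg]
      apply Dvd.dvd.mul_left
      exact Dvd.dvd.trans hXD (dvd_pow_self D two_ne_zero)
  have hfin : (1 + C q * D ^ 2) * W - D = 0 := by
    ext k
    have := key (k + 1)
    rw [X_pow_dvd_iff] at this
    rw [this k (Nat.lt_succ_self k), map_zero]
  exact sub_eq_zero.mp hfin

end Pool.Agent.H765.SC.PLX
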