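import Mathlib
import Pool.Agent.H765.SC.Final
import Pool.Agent.H765.SC.SUM
import Pool.Agent.H765.SC.CAB
import Pool.Agent.H765.SC.ANN
import Pool.Agent.H765.SC.PLU
import Pool.Agent.H765.SC.PLX
import Pool.Agent.H765.SC.PLC
import Pool.Agent.H765.SC.ALX

/-! Project SC: assembly. -/

set_option autoImplicit false

namespace Pool.Agent.H765.SC

open Pool.Agent.H765.GK

theorem Sat.detected {ι : Type} {F : ι → ℤ → PowerSeries ℚ} (hF : ∀ i, Knotlike (F i))
    (hne : ∀ i, F i ≠ unknotJ) (K : Sat ι) (hK : K.Good F) : K.jones F = unknotJ ↔ K.Trivial :=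
  (Sat.main SUM.t_SUM CAB.t_CAB (PLU.t_PLU ANN.t_ANN) (PLC.t_PLC (PLX.t_PLX ANN.t_ANN)) ALX.t_ALX
    hF hne K hK).2

end Pool.Agent.H765.SC
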